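import Mathlib
import Pool.Agent.LatKK.Game

/-!
A criterion for Breaker in the (k:k) game with two kinds of weights.  A winning set is clean as
long as every single move of Maker meets it in at most one point, and dirty afterwards.  Clean sets
have the weight `2 ^ R0 / 2 ^ r` and dirty sets the weight `1 / g ^ r`, where `r` is the number of
missing points and `g = (k+1)^(1/k)`.
-/

set_option autoImplicit false
set_option linter.unusedVariables false
set_option linter.unusedSectionVars false

namespace Pool.Agent.Y629.LT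

open Finset Pool.Agent.LatKK

variable {β : Type*} [DecidableEq β]

/-- total weight of the sets of `F` without a point of `Y` -/
noncomputable def pot (F : Finset (Finset β)) (v : Finset β → ℝ) (Y : Finset β) : ℝ :=
  ∑ A ∈ F, if Disjoint A Y then v A else 0

/-- the weight of these sets at a point -/
noncomputable def pot1 (F : Finset (Finset β)) (v : Finset β → ℝ) (Y : Finset β) (z : β) : ℝ :=
  ∑ A ∈ F, if z ∈ A then (if Disjoint A Y then v A else 0) else 0

variable {F : Finset (Finset β)} {v : Finset β → ℝ}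

lemma ite_insert (Y A : Finset β) (y : β) :
    (if Disjoint A (insert y Y) then v A else 0) = (if Disjoint A Y then v A else 0) -
      if y ∈ A then (if Disjoint A Y then v A else 0) else 0 := by
  rw [if_congr disjoint_insert_right rfl rfl]
  by_cases hy : y ∈ A <;> by_cases hd : Disjoint A Y <;> simp [hy, hd]

lemma pot_insert (Y : Finset β) (y : β) :
    pot F v (insert y Y) = pot F v Y - pot1 F v Y y := by
  unfold pot pot1
  rw [← Finset.sum_sub_distrib]
  exact Finset.sum_congr rfl (fun A _ => ite_insert Y A y)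

lemma pot1_insert_le (hv : ∀ A ∈ F, 0 ≤ v A) (Y : Finset β) (y z : β) :
    pot1 F v (insert y Y) z ≤ pot1 F v Y z := by
  unfold pot1
  apply Finset.sum_le_sum
  intro A hA
  have h0 := hv A hA
  split_ifs with h1 h2 h3 h3
  · exact le_refl _
  · exact absurd (disjoint_insert_right.1 h2).2 h3
  · exact h0
  · exact le_refl _
  · exact le_refl _

lemma pot_union_le (hv : ∀ A ∈ F, 0 ≤ v A) (Y R : Finset β) :
    pot F v (Y ∪ R) ≤ pot F v Y := by
  unfold pot
  apply Finset.sum_le_sum
  intro A hA
  have h0 := hv A hA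
  by_cases h : Disjoint A (Y ∪ R)
  · have h1 : Disjoint A Y := (disjoint_union_right.mp h).1
    rw [if_pos h, if_pos h1]
  · rw [if_neg h]
    split_ifs
    · exact h0
    · exact le_refl _

lemma greedy (hv : ∀ A ∈ F, 0 ≤ v A) (Y Fr : Finset β) : ∀ k ≤ Fr.card, ∃ R ⊆ Fr, R.card = k ∧
    ∀ z ∈ Fr \ R, (k : ℝ) * pot1 F v (Y ∪ R) z ≤ pot F v Y - pot F v (Y ∪ R) := by
  intro k
  induction k with
  | zero =>
    intro _
    refine ⟨∅, Finset.empty_subset _, rfl, ?_⟩
    intro z _
    simp
  | succ k ih =>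
    intro hk
    obtain ⟨R, hR, hRc, hz⟩ := ih (by omega)
    have hne : (Fr \ R).Nonempty := by
      rw [← Finset.card_pos, Finset.card_sdiff_of_subset hR]
      omega
    obtain ⟨y, hy, hymax⟩ := Finset.exists_max_image (Fr \ R) (fun z => pot1 F v (Y ∪ R) z) hne
    rw [mem_sdiff] at hy
    refine ⟨insert y R, Finset.insert_subset hy.1 hR, ?_, ?_⟩
    · rw [Finset.card_insert_of_notMem hy.2, hRc]
    · intro z hz'
      have hzR : z ∈ Fr \ R := by
        rw [mem_sdiff, mem_insert, not_or] at hz'
        exact mem_sdiff.mpr ⟨hz'.1, hz'.2.2⟩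
      have h1 := hz z hzR
      have h2 := hymax z hzR
      have e1 : Y ∪ insert y R = insert y (Y ∪ R) := by
        ext t; simp only [mem_union, mem_insert]; tauto
      rw [e1, pot_insert]
      have h3 := pot1_insert_le hv (Y ∪ R) y z
      have hk0 : (0 : ℝ) ≤ k := Nat.cast_nonneg k
      push_cast
      have h4 : ((k : ℝ) + 1) * pot1 F v (insert y (Y ∪ R)) z
          ≤ ((k : ℝ) + 1) * pot1 F v (Y ∪ R) z := mul_le_mul_of_nonneg_left h3 (by linarith)
      linarith

lemma sum_pot1 (Y Q : Finset β) : ∑ z ∈ Q, pot1 F v Y z =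
    ∑ A ∈ F, (if Disjoint A Y then v A * ((A ∩ Q).card : ℝ) else 0) := by
  unfold pot1
  rw [Finset.sum_comm]
  refine Finset.sum_congr rfl fun A _ => ?_
  rw [← Finset.sum_filter, Finset.sum_const, nsmul_eq_mul]
  have e : Q.filter (fun z => z ∈ A) = A ∩ Q := by
    ext t; simp only [mem_filter, mem_inter]; tauto
  rw [e]
  split_ifs
  · ring
  · simp

/-- Breaker's answer -/
lemma exists_reply {k : ℕ} (hk : 1 ≤ k) (hv : ∀ A ∈ F, 0 ≤ v A) (Y Fr : Finset β) :
    ∃ R ⊆ Fr, R.card = min k Fr.card ∧ ∀ Q ⊆ Fr \ R, Q.card ≤ k →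
      ∑ A ∈ F, (if Disjoint A (Y ∪ R) then v A * (1 + ((A ∩ Q).card : ℝ)) else 0) ≤
        pot F v Y := by
  have hsplit : ∀ R Q : Finset β,
      ∑ A ∈ F, (if Disjoint A (Y ∪ R) then v A * (1 + ((A ∩ Q).card : ℝ)) else 0) =
        pot F v (Y ∪ R) + ∑ z ∈ Q, pot1 F v (Y ∪ R) z := by
    intro R Q
    rw [sum_pot1]
    unfold pot
    rw [← Finset.sum_add_distrib]
    refine Finset.sum_congr rfl fun A _ => ?_
    split_ifs
    · ring
    · simp
  by_cases hb : Fr.card ≤ k
  · refine ⟨Fr, le_refl _, by rw [min_eq_right hb], ?_⟩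
    intro Q hQ _
    rw [Finset.sdiff_self, Finset.subset_empty] at hQ
    subst hQ
    rw [hsplit]
    simpa using pot_union_le hv Y Fr
  · push Not at hb
    obtain ⟨R, hR, hRc, hz⟩ := greedy hv Y Fr k hb.le
    refine ⟨R, hR, by rw [hRc, min_eq_left hb.le], ?_⟩
    intro Q hQ hQk
    rw [hsplit]
    have hk0 : (0 : ℝ) < k := by exact_mod_cast hk
    have hd0 : 0 ≤ pot F v Y - pot F v (Y ∪ R) := by
      have := pot_union_le hv Y R
      linarith
    have h1 : (k : ℝ) * ∑ z ∈ Q, pot1 F v (Y ∪ R) z ≤
        (k : ℝ) * (pot F v Y - pot F v (Y ∪ R)) := by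
      rw [Finset.mul_sum]
      calc ∑ z ∈ Q, (k : ℝ) * pot1 F v (Y ∪ R) z
          ≤ ∑ z ∈ Q, (pot F v Y - pot F v (Y ∪ R)) :=
            Finset.sum_le_sum (fun z hz' => hz z (hQ hz'))
        _ = (Q.card : ℝ) * (pot F v Y - pot F v (Y ∪ R)) := by
            rw [Finset.sum_const, nsmul_eq_mul]
        _ ≤ (k : ℝ) * (pot F v Y - pot F v (Y ∪ R)) := by
            apply mul_le_mul_of_nonneg_right _ hd0
            exact_mod_cast hQk
    have h2 := le_of_mul_le_mul_left h1 hk0
    linarith

open Classical in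
/-- the weight of a set, when Maker owns `M` and `D` is the property of being dirty -/
noncomputable def wt (g : ℝ) (R0 : ℕ) (M : Finset β) (D : Finset β → Prop) (A : Finset β) : ℝ :=
  if D A then (1 / g) ^ (A \ M).card else 2 ^ R0 * (1 / 2) ^ (A \ M).card

lemma wt_nonneg {g : ℝ} (hg : 0 < g) (R0 : ℕ) (M : Finset β) (D : Finset β → Prop)
    (A : Finset β) : 0 ≤ wt g R0 M D A := by
  unfold wt; split_ifs <;> positivity

lemma wt_step {g : ℝ} {k R0 : ℕ} (hg1 : 1 ≤ g) (hgk : ∀ j ≤ k, g ^ j ≤ 1 + (j : ℝ))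
    {M Q : Finset β} {D : Finset β → Prop} {A : Finset β} (hMQ : Disjoint Q M) (hQ : Q.card ≤ k)
    (hlt : wt g R0 M D A < 1) :
    wt g R0 (M ∪ Q) (fun A => D A ∨ 2 ≤ (A ∩ Q).card) A ≤
      wt g R0 M D A * (1 + ((A ∩ Q).card : ℝ)) +
        (if 2 ≤ (A ∩ Q).card then (1 / g) ^ (R0 - k) else 0) := by
  have hg : 0 < g := by linarith
  have hcard : (A \ (M ∪ Q)).card + (A ∩ Q).card = (A \ M).card := by
    have e : A \ M = (A \ (M ∪ Q)) ∪ (A ∩ Q) := by
      ext t
      simp only [mem_sdiff, mem_union, mem_inter]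
      constructor
      · rintro ⟨h1, h2⟩
        by_cases h3 : t ∈ Q
        · exact Or.inr ⟨h1, h3⟩
        · exact Or.inl ⟨h1, fun h => h.elim h2 h3⟩
      · rintro (⟨h1, h2⟩ | ⟨h1, h2⟩)
        · exact ⟨h1, fun h => h2 (Or.inl h)⟩
        · exact ⟨h1, fun h => Finset.disjoint_left.1 hMQ h2 h⟩
    rw [e, card_union_of_disjoint]
    rw [Finset.disjoint_left]
    intro t ht ht'
    simp only [mem_sdiff, mem_union, mem_inter, not_or] at ht ht'
    exact ht.2.2 ht'.2
  have hj : (A ∩ Q).card ≤ k := (card_le_card inter_subset_right).trans hQ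
  set j := (A ∩ Q).card with hjd
  set r := (A \ (M ∪ Q)).card with hrd
  have hj0 : (0 : ℝ) ≤ j := Nat.cast_nonneg j
  unfold wt at hlt ⊢
  beta_reduce
  rw [← hrd, ← hjd]
  rw [← hcard] at hlt ⊢
  by_cases hD : D A
  · simp only [hD, true_or, if_true] at hlt ⊢
    have h1 : (1 / g) ^ r ≤ (1 / g) ^ (r + j) * (1 + (j : ℝ)) := by
      have h2 : (1 / g) ^ r = (1 / g) ^ (r + j) * g ^ j := by
        rw [pow_add, mul_assoc, ← mul_pow, one_div, inv_mul_cancel₀ hg.ne', one_pow, mul_one]
      rw [h2]
      exact mul_le_mul_of_nonneg_left (hgk j hj) (by positivity)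
    have h3 : (0 : ℝ) ≤ if 2 ≤ j then (1 / g) ^ (R0 - k) else 0 := by
      split_ifs <;> positivity
    linarith
  · by_cases h2 : 2 ≤ j
    · simp only [hD, h2, or_true, if_true, if_false] at hlt ⊢
      have hR : R0 < r + j := by
        by_contra hcon
        push Not at hcon
        have h4 : (1 : ℝ) ≤ 2 ^ R0 * (1 / 2) ^ (r + j) := by
          have h5 : (2 : ℝ) ^ R0 * (1 / 2) ^ (r + j) = 2 ^ (R0 - (r + j)) := by
            obtain ⟨e, he⟩ := Nat.exists_eq_add_of_le hcon
            rw [he, Nat.add_sub_cancel_left, pow_add, mul_comm ((2 : ℝ) ^ (r + j)), mul_assoc,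
              ← mul_pow]
            norm_num
          rw [h5]
          exact one_le_pow₀ (by norm_num)
        linarith
      have h6 : (1 / g) ^ r ≤ (1 / g) ^ (R0 - k) := by
        apply pow_le_pow_of_le_one (by positivity)
        · rw [div_le_one hg]; exact hg1
        · omega
      have h7 : (0 : ℝ) ≤ 2 ^ R0 * (1 / 2) ^ (r + j) * (1 + (j : ℝ)) := by positivity
      linarith
    · simp only [hD, h2, or_self, if_false, add_zero] at hlt ⊢
      have h8 : j = 0 ∨ j = 1 := by omega
      rcases h8 with h8 | h8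
      · rw [h8]; simp
      · rw [h8, pow_succ]
        apply le_of_eq
        push_cast
        ring

open Classical in
/-- the number of sets which meet `Q` in two points -/
lemma card_two {k Δ : ℕ} (hΔ : ∀ x y : β, x ≠ y → (F.filter (fun A => x ∈ A ∧ y ∈ A)).card ≤ Δ)
    {Q : Finset β} (hQ : Q.card ≤ k) :
    (F.filter (fun A => 2 ≤ (A ∩ Q).card)).card ≤ k * k * Δ := by
  have hsub : F.filter (fun A => 2 ≤ (A ∩ Q).card) ⊆
      ((Q ×ˢ Q).filter (fun p => p.1 ≠ p.2)).biUnion
        (fun p => F.filter (fun A => p.1 ∈ A ∧ p.2 ∈ A)) := by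
    intro A hA
    rw [mem_filter] at hA
    obtain ⟨x, hx, y, hy, hxy⟩ := Finset.one_lt_card.1 hA.2
    rw [mem_inter] at hx hy
    rw [mem_biUnion]
    refine ⟨(x, y), ?_, ?_⟩
    · rw [mem_filter, mem_product]
      exact ⟨⟨hx.2, hy.2⟩, hxy⟩
    · rw [mem_filter]
      exact ⟨hA.1, hx.1, hy.1⟩
  refine (card_le_card hsub).trans (card_biUnion_le.trans ?_)
  calc ∑ p ∈ (Q ×ˢ Q).filter (fun p => p.1 ≠ p.2), (F.filter (fun A => p.1 ∈ A ∧ p.2 ∈ A)).card
      ≤ ∑ p ∈ (Q ×ˢ Q).filter (fun p => p.1 ≠ p.2), Δ := by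
        refine Finset.sum_le_sum fun p hp => ?_
        rw [mem_filter] at hp
        exact hΔ p.1 p.2 hp.2
    _ = ((Q ×ˢ Q).filter (fun p => p.1 ≠ p.2)).card * Δ := by rw [sum_const, smul_eq_mul]
    _ ≤ k * k * Δ := by
        apply Nat.mul_le_mul_right
        refine (card_filter_le _ _).trans ?_
        rw [card_product]
        exact Nat.mul_le_mul hQ hQ

/-- one round -/
lemma pot_step {g : ℝ} {k R0 Δ : ℕ} (hg1 : 1 ≤ g) (hgk : ∀ j ≤ k, g ^ j ≤ 1 + (j : ℝ))
    (hΔ : ∀ x y : β, x ≠ y → (F.filter (fun A => x ∈ A ∧ y ∈ A)).card ≤ Δ)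
    {M Q Y : Finset β} {D : Finset β → Prop} (hMQ : Disjoint Q M) (hQ : Q.card ≤ k)
    (hlt : ∀ A ∈ F, Disjoint A Y → wt g R0 M D A < 1) :
    pot F (wt g R0 (M ∪ Q) (fun A => D A ∨ 2 ≤ (A ∩ Q).card)) Y ≤
      ∑ A ∈ F, (if Disjoint A Y then wt g R0 M D A * (1 + ((A ∩ Q).card : ℝ)) else 0) +
        (k * k * Δ : ℕ) * (1 / g) ^ (R0 - k) := by
  classical
  have hg : 0 < g := by linarith
  have h1 : pot F (wt g R0 (M ∪ Q) (fun A => D A ∨ 2 ≤ (A ∩ Q).card)) Y ≤
      ∑ A ∈ F, ((if Disjoint A Y then wt g R0 M D A * (1 + ((A ∩ Q).card : ℝ)) else 0) +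
        (if 2 ≤ (A ∩ Q).card then (1 / g) ^ (R0 - k) else 0)) := by
    unfold pot
    refine Finset.sum_le_sum fun A hA => ?_
    by_cases hd : Disjoint A Y
    · rw [if_pos hd, if_pos hd]
      exact wt_step hg1 hgk hMQ hQ (hlt A hA hd)
    · rw [if_neg hd, if_neg hd, zero_add]
      split_ifs <;> positivity
  refine h1.trans ?_
  rw [Finset.sum_add_distrib]
  have h2 : ∑ A ∈ F, (if 2 ≤ (A ∩ Q).card then (1 / g) ^ (R0 - k) else 0) =
      ((F.filter (fun A => 2 ≤ (A ∩ Q).card)).card : ℝ) * (1 / g) ^ (R0 - k) := by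
    rw [← Finset.sum_filter, Finset.sum_const, nsmul_eq_mul]
  rw [h2]
  have h3 : ((F.filter (fun A => 2 ≤ (A ∩ Q).card)).card : ℝ) ≤ (k * k * Δ : ℕ) := by
    exact_mod_cast card_two hΔ hQ
  have h4 : (0 : ℝ) ≤ (1 / g) ^ (R0 - k) := by positivity
  have h5 := mul_le_mul_of_nonneg_right h3 h4
  linarith

/-- the moves number `1, 3, 5, ...` are made according to `τ` -/
def FollowsB (τ : List (Finset β) → Finset β) (h : List (Finset β)) : Prop :=
  ∀ (i : ℕ) (hi : i < h.length), i % 2 = 1 → h[i]'hi = τ (h.take i)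

theorem FollowsB_append (τ : List (Finset β) → Finset β) (h : List (Finset β)) (m : Finset β)
    (H : FollowsB τ (h ++ [m])) : FollowsB τ h ∧ (h.length % 2 = 1 → m = τ h) := by
  constructor
  · intro i hi hi2
    have hi' : i < (h ++ [m]).length := by simp; omega
    have := H i hi' hi2
    rw [getElem_append_lt' h m i hi hi', take_append' h m i hi.le] at this
    exact this
  · intro h2
    have hi' : h.length < (h ++ [m]).length := by simp
    have := H h.length hi' h2
    rw [take_append' h m _ le_rfl, List.take_length] at this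
    have e : (h ++ [m])[h.length]'hi' = m := by simp
    rw [e] at this
    exact this

/-- `A` was met in two points by one move of Maker -/
def Dty (h : List (Finset β)) (A : Finset β) : Prop :=
  ∃ (i : ℕ) (hi : i < h.length), i % 2 = 0 ∧ 2 ≤ (A ∩ h[i]'hi).card

theorem Dty_even (h : List (Finset β)) (m : Finset β) (hl : h.length % 2 = 0) :
    Dty (h ++ [m]) = fun A => Dty h A ∨ 2 ≤ (A ∩ m).card := by
  funext A
  apply propext
  constructor
  · rintro ⟨i, hi, hi2, hc⟩
    by_cases hlt : i < h.length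
    · rw [getElem_append_lt' h m i hlt hi] at hc
      exact Or.inl ⟨i, hlt, hi2, hc⟩
    · right
      have : i = h.length := by simp at hi; omega
      subst this
      have e : (h ++ [m])[h.length]'hi = m := by simp
      rw [e] at hc
      exact hc
  · rintro (⟨i, hi, hi2, hc⟩ | hc)
    · have hi' : i < (h ++ [m]).length := by simp; omega
      refine ⟨i, hi', hi2, ?_⟩
      rw [getElem_append_lt' h m i hi hi']
      exact hc
    · have hi' : h.length < (h ++ [m]).length := by simp
      refine ⟨h.length, hi', hl, ?_⟩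
      have e : (h ++ [m])[h.length]'hi' = m := by simp
      rw [e]
      exact hc

theorem Dty_odd (h : List (Finset β)) (m : Finset β) (hl : h.length % 2 = 1) :
    Dty (h ++ [m]) = Dty h := by
  funext A
  apply propext
  constructor
  · rintro ⟨i, hi, hi2, hc⟩
    by_cases hlt : i < h.length
    · rw [getElem_append_lt' h m i hlt hi] at hc
      exact ⟨i, hlt, hi2, hc⟩
    · have : i = h.length := by simp at hi; omega
      omega
  · rintro ⟨i, hi, hi2, hc⟩
    have hi' : i < (h ++ [m]).length := by simp; omega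
    refine ⟨i, hi', hi2, ?_⟩
    rw [getElem_append_lt' h m i hi hi']
    exact hc

theorem length_le (E : Finset β) (k : ℕ) (h : List (Finset β)) (H : Legal E k h) :
    h.length + (free E h).card ≤ E.card := by
  induction h using List.reverseRecOn with
  | nil => simp [free]
  | append_singleton h m ih =>
    obtain ⟨h1, h2⟩ := Legal_append E k h m H
    have h3 := ih h1
    rw [free_append, card_sdiff_of_subset h2.1]
    have h4 := Finset.card_pos.2 h2.2.2
    have h5 := card_le_card h2.1
    simp only [List.length_append, List.length_singleton]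
    omega

theorem free_disjoint (E : Finset β) (h : List (Finset β)) : Disjoint (free E h) (own E 0 h) := by
  rw [free_eq, Finset.disjoint_left]
  intro e he he'
  simp only [mem_sdiff, mem_union, not_or] at he
  exact he.2.1 he'

/-- **Breaker's criterion with two kinds of weights.** -/
theorem breaker_crit (E : Finset β) (k R0 Δ : ℕ) (hk : 1 ≤ k) (F : Finset (Finset β)) (g : ℝ)
    (hg1 : 1 ≤ g) (hgk : ∀ j ≤ k, g ^ j ≤ 1 + (j : ℝ))
    (hΔ : ∀ x y : β, x ≠ y → (F.filter (fun A => x ∈ A ∧ y ∈ A)).card ≤ Δ)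
    (hsmall : (1 + k : ℝ) * ∑ A ∈ F, (2 : ℝ) ^ R0 * (1 / 2) ^ A.card +
      ((E.card : ℝ) + 1) * ((k * k * Δ : ℕ) * (1 / g) ^ (R0 - k)) < 1) :
    ∃ τ : List (Finset β) → Finset β,
      (∀ h : List (Finset β), (free E h).Nonempty → IsMove E k h (τ h)) ∧
      (∀ h : List (Finset β), Legal E k h → FollowsB τ h → ∀ A ∈ F, ¬ A ⊆ own E 0 h) := by
  classical
  have hg : 0 < g := by linarith
  set ι : ℝ := (k * k * Δ : ℕ) * (1 / g) ^ (R0 - k) with hι
  have hι0 : 0 ≤ ι := by positivity
  set P : ℝ := (1 + k : ℝ) * ∑ A ∈ F, (2 : ℝ) ^ R0 * (1 / 2) ^ A.card with hP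
  have hP0 : 0 ≤ P := by positivity
  have hex : ∀ h : List (Finset β), ∃ R ⊆ free E h, R.card = min k (free E h).card ∧
      ∀ Q ⊆ free E h \ R, Q.card ≤ k →
        ∑ A ∈ F, (if Disjoint A (own E 1 h ∪ R) then
          wt g R0 (own E 0 h) (Dty h) A * (1 + ((A ∩ Q).card : ℝ)) else 0) ≤
          pot F (wt g R0 (own E 0 h) (Dty h)) (own E 1 h) :=
    fun h => exists_reply (F := F) hk (fun A _ => wt_nonneg hg _ _ _ A) (own E 1 h) (free E h)
  choose τ hτ1 hτ2 hτ3 using hex
  refine ⟨τ, ?_, ?_⟩
  · intro h hne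
    refine ⟨hτ1 h, hτ2 h, ?_⟩
    rw [← Finset.card_pos, hτ2 h]
    have := Finset.card_pos.2 hne
    omega
  · have hbound : ∀ n : ℕ, n ≤ E.card + 1 → P + n * ι < 1 := by
      intro n hn
      refine lt_of_le_of_lt ?_ hsmall
      have : (n : ℝ) ≤ (E.card : ℝ) + 1 := by exact_mod_cast hn
      have := mul_le_mul_of_nonneg_right this hι0
      linarith
    have hsingle : ∀ (w : Finset β → ℝ), (∀ A ∈ F, 0 ≤ w A) → ∀ Y A, A ∈ F → Disjoint A Y →
        w A ≤ pot F w Y := by
      intro w hw Y A hA hd
      have h1 : (if Disjoint A Y then w A else 0) ≤ pot F w Y := by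
        unfold pot
        refine Finset.single_le_sum (f := fun A => if Disjoint A Y then w A else 0) ?_ hA
        intro B hB
        have := hw B hB
        split_ifs
        · exact this
        · exact le_refl _
      rwa [if_pos hd] at h1
    have hinv : ∀ h : List (Finset β), Legal E k h → FollowsB τ h →
        (h.length % 2 = 1 → pot F (wt g R0 (own E 0 h) (Dty h)) (own E 1 h) ≤
          P + h.length * ι) ∧
        (h.length % 2 = 0 → ∀ Q ⊆ free E h, Q.card ≤ k →
          pot F (wt g R0 (own E 0 h ∪ Q) (fun A => Dty h A ∨ 2 ≤ (A ∩ Q).card)) (own E 1 h) ≤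
            P + (h.length + 1) * ι) := by
      intro h
      induction h using List.reverseRecOn with
      | nil =>
        intro _ _
        refine ⟨fun h1 => by simp at h1, fun _ Q _ hQ => ?_⟩
        have e0 : own E 0 ([] : List (Finset β)) = ∅ := by simp [own]
        have e1 : own E 1 ([] : List (Finset β)) = ∅ := by simp [own]
        have e2 : ∀ A, wt g R0 (∅ : Finset β) (Dty []) A = 2 ^ R0 * (1 / 2) ^ A.card := by
          intro A
          unfold wt
          rw [if_neg, sdiff_empty]
          rintro ⟨i, hi, -⟩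
          simp at hi
        rw [e0, e1]
        have h0 := pot_step (F := F) (R0 := R0) (Y := ∅) (D := Dty []) hg1 hgk hΔ
          (Finset.disjoint_empty_right Q) hQ (by
            intro A hA _
            rw [e2]
            have h1 : (2 : ℝ) ^ R0 * (1 / 2) ^ A.card ≤
                ∑ A ∈ F, (2 : ℝ) ^ R0 * (1 / 2) ^ A.card :=
              Finset.single_le_sum (f := fun A => (2 : ℝ) ^ R0 * (1 / 2) ^ A.card)
                (fun _ _ => by positivity) hA
            have h2 : ∑ A ∈ F, (2 : ℝ) ^ R0 * (1 / 2) ^ A.card ≤ P := by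
              rw [hP]
              refine le_mul_of_one_le_left (by positivity) ?_
              have : (0 : ℝ) ≤ k := Nat.cast_nonneg k
              linarith
            have h3 := hbound 0 (by omega)
            push_cast at h3
            linarith)
        refine h0.trans ?_
        simp only [List.length_nil, Nat.cast_zero, zero_add, one_mul]
        rw [← hι]
        have h4 : ∑ A ∈ F, (if Disjoint A ∅ then wt g R0 ∅ (Dty []) A * (1 + ((A ∩ Q).card : ℝ))
            else 0) ≤ P := by
          rw [hP, Finset.mul_sum]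
          refine Finset.sum_le_sum fun A hA => ?_
          rw [if_pos (Finset.disjoint_empty_right A), e2]
          have h5 : ((A ∩ Q).card : ℝ) ≤ k := by
            exact_mod_cast (card_le_card inter_subset_right).trans hQ
          have h6 : (0 : ℝ) ≤ 2 ^ R0 * (1 / 2) ^ A.card := by positivity
          have h7 := mul_le_mul_of_nonneg_left h5 h6
          linarith
        linarith
      | append_singleton h m ih =>
        intro hL hF
        obtain ⟨hL', hM⟩ := Legal_append E k h m hL
        obtain ⟨hF', hmτ⟩ := FollowsB_append τ h m hF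
        obtain ⟨ih1, ih0⟩ := ih hL' hF'
        have hmE : m ⊆ E := hM.1.trans (free_subset E h)
        have hlen : (h ++ [m]).length = h.length + 1 := by simp
        rcases Nat.mod_two_eq_zero_or_one h.length with h4 | h4
        · refine ⟨fun _ => ?_, fun h5 => by rw [hlen] at h5; omega⟩
          rw [own_append_same E 0 h m h4 hmE, own_append_other E 1 h m (by omega),
            Dty_even h m h4, hlen]
          have := ih0 h4 m hM.1 (by rw [hM.2.1]; exact min_le_left _ _)
          push_cast
          exact this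
        · refine ⟨fun h5 => by rw [hlen] at h5; omega, fun _ Q hQ hQk => ?_⟩
          have hms := hmτ h4
          rw [free_append] at hQ
          rw [own_append_other E 0 h m (by omega), own_append_same E 1 h m h4 hmE,
            Dty_odd h m h4, hlen]
          have hMQ : Disjoint Q (own E 0 h) :=
            Finset.disjoint_of_subset_left (hQ.trans sdiff_subset) (free_disjoint E h)
          have h5 := hτ3 h Q (by rw [← hms]; exact hQ) hQk
          rw [← hms] at h5
          have h6 := ih1 h4
          have hle := length_le E k h hL'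
          have h7 : pot F (wt g R0 (own E 0 h) (Dty h)) (own E 1 h) < 1 :=
            lt_of_le_of_lt h6 (hbound h.length (by omega))
          have h8 := pot_step (F := F) (R0 := R0) (Y := own E 1 h ∪ m) (D := Dty h) hg1 hgk hΔ
            hMQ hQk (by
              intro A hA hd
              exact lt_of_le_of_lt (hsingle _ (fun A _ => wt_nonneg hg _ _ _ A) (own E 1 h) A hA
                (disjoint_union_right.mp hd).1) h7)
          rw [← hι] at h8
          push_cast
          linarith
    intro h hL hF A hA hAM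
    have hd := own_disjoint E k h hL
    have hAY : Disjoint A (own E 1 h) := Finset.disjoint_of_subset_left hAM hd
    have hle := length_le E k h hL
    have hone : ∀ D : Finset β → Prop, 1 ≤ wt g R0 (own E 0 h) D A := by
      intro D
      unfold wt
      rw [Finset.sdiff_eq_empty_iff_subset.mpr hAM]
      simp only [Finset.card_empty, pow_zero, mul_one]
      split_ifs
      · exact le_refl _
      · exact one_le_pow₀ (by norm_num)
    rcases Nat.mod_two_eq_zero_or_one h.length with h4 | h4
    · have h5 := (hinv h hL hF).2 h4 ∅ (Finset.empty_subset _) (by simp)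
      rw [Finset.union_empty] at h5
      have h6 := hsingle _ (fun A _ => wt_nonneg hg R0 (own E 0 h)
        (fun A => Dty h A ∨ 2 ≤ (A ∩ ∅).card) A) (own E 1 h) A hA hAY
      have h7 := hbound (h.length + 1) (by omega)
      have h8 := hone (fun A => Dty h A ∨ 2 ≤ (A ∩ ∅).card)
      push_cast at h7
      linarith
    · have h5 := (hinv h hL hF).1 h4
      have h6 := hsingle _ (fun A _ => wt_nonneg hg R0 (own E 0 h) (Dty h) A) (own E 1 h) A hA hAY
      have h7 := hbound h.length (by omega)
      have h8 := hone (Dty h)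
      linarith

end Pool.Agent.Y629.LT
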