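import Pool.Agent.Results.MP_6045b2_co.FairLattice
import Pool.Agent.Y629.LT.Core

/-!
The family of the `q × q` parallelogram lattices of the `N × N` board: number of members, size of
the members, number of members through two points.
-/

set_option autoImplicit false
set_option linter.unusedVariables false

namespace Pool.Agent.Y629.LT

open Finset Pool.Agent.LatKK
open Pool.Agent.Results.MP_6045b2_co.FairLattice (board unclaimed IsLegalMove IsPlay IsStrategy
  MakerOwns OwnsLattice MakerCanBuild BreakerCanPrevent)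

/-- the point with the coordinates `p` in the lattice with the corner `t.1` and the two next points
`t.2.1`, `t.2.2` -/
def pt (t : (ℤ × ℤ) × (ℤ × ℤ) × (ℤ × ℤ)) (p : ℕ × ℕ) : ℤ × ℤ :=
  t.1 + (p.1 : ℤ) • (t.2.1 - t.1) + (p.2 : ℤ) • (t.2.2 - t.1)

/-- the `q × q` lattice -/
def lat (q : ℕ) (t : (ℤ × ℤ) × (ℤ × ℤ) × (ℤ × ℤ)) : Finset (ℤ × ℤ) :=
  (range q ×ˢ range q).image (pt t)

open Classical in
/-- the triples of points of the board which are not collinear -/
noncomputable def trip (N : ℕ) : Finset ((ℤ × ℤ) × (ℤ × ℤ) × (ℤ × ℤ)) :=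
  (board N ×ˢ board N ×ˢ board N).filter
    (fun t => LinearIndependent ℤ ![t.2.1 - t.1, t.2.2 - t.1])

/-- the `q × q` parallelogram lattices spanned by three points of the board -/
noncomputable def fam (N q : ℕ) : Finset (Finset (ℤ × ℤ)) := (trip N).image (lat q)

theorem card_board (N : ℕ) : (board N).card = N * N := by
  unfold board
  rw [card_product, Int.card_Icc]
  simp

theorem card_trip (N : ℕ) : (trip N).card ≤ N ^ 6 := by
  classical
  unfold trip
  refine (card_filter_le _ _).trans ?_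
  rw [card_product, card_product, card_board]
  exact le_of_eq (by ring)

theorem card_fam (N q : ℕ) : (fam N q).card ≤ N ^ 6 :=
  card_image_le.trans (card_trip N)

theorem card_lat (q : ℕ) (t : (ℤ × ℤ) × (ℤ × ℤ) × (ℤ × ℤ))
    (ht : LinearIndependent ℤ ![t.2.1 - t.1, t.2.2 - t.1]) : (lat q t).card = q * q := by
  unfold lat
  rw [card_image_of_injective, card_product, card_range]
  rintro ⟨i, j⟩ ⟨i', j'⟩ hij
  simp only [pt] at hij
  rw [LinearIndependent.pair_iff] at ht
  have h1 := ht ((i : ℤ) - i') ((j : ℤ) - j') (by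
    rw [sub_smul, sub_smul]
    have : t.1 + (i : ℤ) • (t.2.1 - t.1) + (j : ℤ) • (t.2.2 - t.1) -
      (t.1 + (i' : ℤ) • (t.2.1 - t.1) + (j' : ℤ) • (t.2.2 - t.1)) = 0 := by
      rw [hij, sub_self]
    rw [← this]
    abel)
  obtain ⟨h2, h3⟩ := h1
  have h4 : i = i' := by omega
  have h5 : j = j' := by omega
  rw [h4, h5]

theorem card_mem_fam {N q : ℕ} {A : Finset (ℤ × ℤ)} (hA : A ∈ fam N q) : A.card = q * q := by
  classical
  unfold fam trip at hA
  rw [mem_image] at hA
  obtain ⟨t, ht, rfl⟩ := hA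
  rw [mem_filter] at ht
  exact card_lat q t ht.2

lemma solve {i j i' j' x y a b c a' b' c' : ℤ} (hj : j ≠ j')
    (h1 : a + i * (b - a) + j * (c - a) = x) (h2 : a + i' * (b - a) + j' * (c - a) = y)
    (h1' : a' + i * (b' - a') + j * (c' - a') = x)
    (h2' : a' + i' * (b' - a') + j' * (c' - a') = y) (hu : b - a = b' - a') :
    a = a' ∧ b = b' ∧ c = c' := by
  have h3 : (j - j') * ((c - a) - (c' - a')) = 0 := by
    linear_combination h1 - h2 - h1' + h2' - (i - i') * hu
  have h4 : c - a = c' - a' := by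
    rcases mul_eq_zero.1 h3 with h | h
    · exact absurd (by linarith) hj
    · linarith
  have h5 : a = a' := by linear_combination h1 - h1' - i * hu - j * h4
  exact ⟨h5, by linarith, by linarith⟩

/-- the box of the differences -/
noncomputable def box (N : ℕ) : Finset (ℤ × ℤ) := Icc (-(N : ℤ)) N ×ˢ Icc (-(N : ℤ)) N

theorem card_box (N : ℕ) : (box N).card = (2 * N + 1) ^ 2 := by
  unfold box
  rw [card_product, Int.card_Icc]
  have : ((N : ℤ) + 1 - -(N : ℤ)).toNat = 2 * N + 1 := by omega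
  rw [this]
  ring

theorem sub_mem_box {N : ℕ} {x y : ℤ × ℤ} (hx : x ∈ board N) (hy : y ∈ board N) :
    x - y ∈ box N := by
  unfold board at hx hy
  unfold box
  rw [mem_product, mem_Icc, mem_Icc] at hx hy ⊢
  simp only [Prod.fst_sub, Prod.snd_sub]
  refine ⟨⟨?_, ?_⟩, ⟨?_, ?_⟩⟩ <;> omega

theorem piece (N : ℕ) (x y : ℤ × ℤ) (hxy : x ≠ y) (e f : ℕ × ℕ) :
    ((board N ×ˢ board N ×ˢ board N).filter (fun t => pt t e = x ∧ pt t f = y)).card ≤
      (2 * N + 1) ^ 2 := by
  rw [← card_box]
  obtain ⟨i, j⟩ := e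
  obtain ⟨i', j'⟩ := f
  by_cases hj : j = j'
  · by_cases hi : i = i'
    · subst hi; subst hj
      rw [Finset.filter_false_of_mem]
      · simp
      · rintro t - ⟨h1, h2⟩
        exact hxy (h1.symm.trans h2)
    · refine Finset.card_le_card_of_injOn (fun t => t.2.2 - t.1) ?_ ?_
      · intro t ht
        simp only [coe_filter, mem_product, Set.mem_ofPred_eq] at ht
        exact mem_coe.2 (sub_mem_box ht.1.2.2 ht.1.1)
      · rintro ⟨⟨a1, a2⟩, ⟨b1, b2⟩, ⟨c1, c2⟩⟩ ht ⟨⟨a1', a2'⟩, ⟨b1', b2'⟩, ⟨c1', c2'⟩⟩ ht' hu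
        simp only [coe_filter, Set.mem_ofPred_eq] at ht ht'
        obtain ⟨-, h1, h2⟩ := ht
        obtain ⟨-, h1', h2'⟩ := ht'
        simp only [pt, Prod.ext_iff, Prod.fst_add, Prod.snd_add, Prod.smul_fst, Prod.smul_snd,
          Prod.fst_sub, Prod.snd_sub, smul_eq_mul] at h1 h2 h1' h2' hu
        have hi2 : (i : ℤ) ≠ i' := by exact_mod_cast hi
        obtain ⟨r1, r2, r3⟩ := solve (x := x.1) (y := y.1) (i := j) (i' := j') (b := c1) (c := b1)
          (b' := c1') (c' := b1') hi2 (by linarith [h1.1]) (by linarith [h2.1])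
          (by linarith [h1'.1]) (by linarith [h2'.1]) hu.1
        obtain ⟨s1, s2, s3⟩ := solve (x := x.2) (y := y.2) (i := j) (i' := j') (b := c2) (c := b2)
          (b' := c2') (c' := b2') hi2 (by linarith [h1.2]) (by linarith [h2.2])
          (by linarith [h1'.2]) (by linarith [h2'.2]) hu.2
        rw [r1, r2, r3, s1, s2, s3]
  · refine Finset.card_le_card_of_injOn (fun t => t.2.1 - t.1) ?_ ?_
    · intro t ht
      simp only [coe_filter, mem_product, Set.mem_ofPred_eq] at ht
      exact mem_coe.2 (sub_mem_box ht.1.2.1 ht.1.1)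
    · rintro ⟨⟨a1, a2⟩, ⟨b1, b2⟩, ⟨c1, c2⟩⟩ ht ⟨⟨a1', a2'⟩, ⟨b1', b2'⟩, ⟨c1', c2'⟩⟩ ht' hu
      simp only [coe_filter, Set.mem_ofPred_eq] at ht ht'
      obtain ⟨-, h1, h2⟩ := ht
      obtain ⟨-, h1', h2'⟩ := ht'
      simp only [pt, Prod.ext_iff, Prod.fst_add, Prod.snd_add, Prod.smul_fst, Prod.smul_snd,
        Prod.fst_sub, Prod.snd_sub, smul_eq_mul] at h1 h2 h1' h2' hu
      have hj2 : (j : ℤ) ≠ j' := by exact_mod_cast hj
      obtain ⟨r1, r2, r3⟩ := solve hj2 h1.1 h2.1 h1'.1 h2'.1 hu.1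
      obtain ⟨s1, s2, s3⟩ := solve hj2 h1.2 h2.2 h1'.2 h2'.2 hu.2
      rw [r1, r2, r3, s1, s2, s3]

/-- the number of lattices through two points -/
theorem codeg (N q : ℕ) (x y : ℤ × ℤ) (hxy : x ≠ y) :
    ((fam N q).filter (fun A => x ∈ A ∧ y ∈ A)).card ≤ q ^ 4 * (2 * N + 1) ^ 2 := by
  classical
  have h1 : (fam N q).filter (fun A => x ∈ A ∧ y ∈ A) ⊆
      (((range q ×ˢ range q) ×ˢ (range q ×ˢ range q)).biUnion (fun e =>
        (board N ×ˢ board N ×ˢ board N).filter (fun t => pt t e.1 = x ∧ pt t e.2 = y))).image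
        (lat q) := by
    intro A hA
    rw [mem_filter] at hA
    obtain ⟨hA, hx, hy⟩ := hA
    unfold fam trip at hA
    rw [mem_image] at hA
    obtain ⟨t, ht, rfl⟩ := hA
    rw [mem_filter] at ht
    unfold lat at hx hy
    rw [mem_image] at hx hy
    obtain ⟨e, he, hex⟩ := hx
    obtain ⟨f, hf, hfy⟩ := hy
    refine mem_image_of_mem _ ?_
    rw [mem_biUnion]
    refine ⟨(e, f), mem_product.2 ⟨he, hf⟩, ?_⟩
    rw [mem_filter]
    exact ⟨ht.1, hex, hfy⟩
  refine (card_le_card h1).trans (card_image_le.trans (card_biUnion_le.trans ?_))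
  refine (Finset.sum_le_sum (fun e _ => piece N x y hxy e.1 e.2)).trans ?_
  rw [sum_const, smul_eq_mul, card_product, card_product, card_range]
  exact le_of_eq (by ring)

theorem play_mem {k N : ℕ} {h : List (Finset (ℤ × ℤ))} (hp : IsPlay k N h) {x : ℤ × ℤ}
    (hx : MakerOwns h x) : x ∈ own (board N) 0 h := by
  obtain ⟨i, hi, hi2, hxi⟩ := hx
  unfold own
  rw [mem_filter]
  refine ⟨?_, i, hi, hi2, hxi⟩
  have h1 := (hp i hi).1 hxi
  unfold unclaimed at h1
  rw [mem_filter] at h1
  exact h1.1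

/-- from the strategy against the family to the strategy against all large lattices -/
theorem prevent_of_strategy {k N q : ℕ} {r : ℝ} (hq : 2 ≤ q) (hr : (q : ℝ) < r + 1)
    (hst : ∃ τ : List (Finset (ℤ × ℤ)) → Finset (ℤ × ℤ),
      (∀ h : List (Finset (ℤ × ℤ)), (free (board N) h).Nonempty → IsMove (board N) k h (τ h)) ∧
      (∀ h : List (Finset (ℤ × ℤ)), Legal (board N) k h → FollowsB τ h →
        ∀ A ∈ fam N q, ¬ A ⊆ own (board N) 0 h)) : BreakerCanPrevent k N r := by
  classical
  obtain ⟨τ, hτ1, hτ2⟩ := hst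
  refine ⟨τ, ?_, ?_⟩
  · intro h hp hf hl hne
    exact hτ1 h hne
  · intro h hp hf hu q' hq' hown
    have hqq : q ≤ q' := by
      have : (q : ℝ) < (q' : ℝ) + 1 := lt_of_lt_of_le hr (by linarith)
      have h2 : q < q' + 1 := by exact_mod_cast this
      omega
    obtain ⟨a, u, v, hli, hall⟩ := hown
    have hmem : ∀ i j : ℕ, i < q' → j < q' →
        a + (i : ℤ) • u + (j : ℤ) • v ∈ own (board N) 0 h :=
      fun i j hi hj => play_mem hp (hall i j hi hj)
    have hb : ∀ x ∈ own (board N) 0 h, x ∈ board N := fun x hx => own_subset _ _ _ hx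
    have ha : a ∈ board N := by
      have := hb _ (hmem 0 0 (by omega) (by omega))
      simpa using this
    have hau : a + u ∈ board N := by
      have := hb _ (hmem 1 0 (by omega) (by omega))
      simpa using this
    have hav : a + v ∈ board N := by
      have := hb _ (hmem 0 1 (by omega) (by omega))
      simpa using this
    have e1 : a + u - a = u := by abel
    have e2 : a + v - a = v := by abel
    have hA : lat q (a, a + u, a + v) ∈ fam N q := by
      unfold fam trip
      refine mem_image_of_mem _ ?_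
      rw [mem_filter]
      refine ⟨?_, ?_⟩
      · rw [mem_product, mem_product]
        exact ⟨ha, hau, hav⟩
      · simp only [e1, e2]
        exact hli
    refine hτ2 h hp (fun i hi hi2 => hf i hi hi2) _ hA ?_
    intro x hx
    unfold lat at hx
    rw [mem_image] at hx
    obtain ⟨⟨i, j⟩, hij, rfl⟩ := hx
    rw [mem_product, mem_range, mem_range] at hij
    simp only [pt, e1, e2]
    exact hmem i j (by have := hij.1; simp only at this; omega)
      (by have := hij.2; simp only at this; omega)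

end Pool.Agent.Y629.LT
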