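import Pool.Agent.Y629.LT.Fam

/-!
Breaker's bound `c² > 4k / log₂(k+1) + 6` in the (k:k) lattice game.
-/

set_option autoImplicit false
set_option linter.unusedVariables false

namespace Pool.Agent.Y629.LT

open Finset Pool.Agent.LatKK
open Pool.Agent.Results.MP_6045b2_co.FairLattice (board unclaimed IsLegalMove IsPlay IsStrategy
  MakerOwns OwnsLattice MakerCanBuild BreakerCanPrevent)

/-- the base of the weights of the dirty sets -/
noncomputable def gg (k : ℕ) : ℝ := (1 + k : ℝ) ^ (1 / (k : ℝ))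

lemma gg_one (k : ℕ) : 1 ≤ gg k := by
  unfold gg
  have : (0 : ℝ) ≤ k := Nat.cast_nonneg k
  exact Real.one_le_rpow (by linarith) (by positivity)

lemma gg_pow (k : ℕ) (hk : 1 ≤ k) : ∀ j ≤ k, gg k ^ j ≤ 1 + (j : ℝ) := by
  intro j hj
  have hk0 : (0 : ℝ) < k := by exact_mod_cast hk
  have hB : (0 : ℝ) < 1 + k := by linarith
  have e4 : gg k ^ j = (1 + k : ℝ) ^ ((j : ℝ) / k) := by
    unfold gg
    rw [← Real.rpow_natCast, ← Real.rpow_mul hB.le]
    congr 1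
    ring
  rw [e4]
  have hj' : (j : ℝ) / k ≤ 1 := by
    rw [div_le_one hk0]; exact_mod_cast hj
  have := rpow_one_add_le_one_add_mul_self (s := (k : ℝ)) (by linarith)
    (p := (j : ℝ) / k) (by positivity) hj'
  refine this.trans (le_of_eq ?_)
  field_simp

lemma gg_rpow (k : ℕ) (hk : 1 ≤ k) (n : ℕ) :
    gg k ^ n = (2 : ℝ) ^ (Real.logb 2 ((k : ℝ) + 1) / k * n) := by
  have hk0 : (0 : ℝ) < k := by exact_mod_cast hk
  have hB : (0 : ℝ) < 1 + k := by linarith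
  have e : (1 + k : ℝ) = 2 ^ (Real.logb 2 ((k : ℝ) + 1)) := by
    rw [Real.rpow_logb (by norm_num) (by norm_num) (by linarith), add_comm]
  unfold gg
  rw [← Real.rpow_natCast, ← Real.rpow_mul hB.le]
  conv_lhs => rw [e]
  rw [← Real.rpow_mul (by norm_num)]
  congr 1
  ring

/-- exponentials beat squares -/
lemma exp_beats {C δ : ℝ} (hC : 0 ≤ C) (hδ : 0 < δ) : ∃ L₀ : ℝ, ∀ L : ℝ, L₀ ≤ L →
    C * L ^ 2 < (2 : ℝ) ^ (δ * L) := by
  set η : ℝ := δ * Real.log 2 with hη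
  have hl : 0 < Real.log 2 := Real.log_pos (by norm_num)
  have hη0 : 0 < η := by positivity
  refine ⟨6 * C / η ^ 3 + 1, fun L hL => ?_⟩
  have hL0 : 0 < L := lt_of_lt_of_le (by positivity) hL
  have h1 : (2 : ℝ) ^ (δ * L) = Real.exp (η * L) := by
    rw [Real.rpow_def_of_pos (by norm_num), hη]
    congr 1
    ring
  rw [h1]
  have h2 := Real.pow_div_factorial_le_exp (η * L) (by positivity) 3
  have h3 : ((Nat.factorial 3 : ℕ) : ℝ) = 6 := by norm_num [Nat.factorial]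
  rw [h3] at h2
  refine lt_of_lt_of_le ?_ h2
  have h4 : 6 * C / η ^ 3 < L := by linarith
  rw [div_lt_iff₀ (by positivity)] at h4
  rw [lt_div_iff₀ (by norm_num), mul_pow]
  have h5 : L ^ 3 = L * L ^ 2 := by ring
  have h6 : (0 : ℝ) < L ^ 2 := by positivity
  nlinarith [mul_lt_mul_of_pos_right h4 h6]

/-- the sharper upper bound -/
theorem breaker_sharp (k : ℕ) (c : ℝ) (hk : 1 ≤ k) (hc : 0 < c)
    (h : 4 * (k : ℝ) + 6 * Real.logb 2 ((k : ℝ) + 1) < c ^ 2 * Real.logb 2 ((k : ℝ) + 1)) :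
    ∃ N₀ : ℕ, ∀ N : ℕ, N₀ ≤ N → BreakerCanPrevent k N (c * Real.sqrt (Real.logb 2 N)) := by
  have hkR : (1 : ℝ) ≤ k := by exact_mod_cast hk
  have hk0 : (0 : ℝ) < k := by linarith
  set K := Real.logb 2 ((k : ℝ) + 1) with hK
  have hK0 : 0 < K := Real.logb_pos (by norm_num) (by linarith)
  set δ : ℝ := (K * (c ^ 2 - 6) - 4 * k) / k with hδ
  have hδ0 : 0 < δ := by
    rw [hδ]
    apply div_pos _ hk0
    linarith
  have hKk : K / k * (c ^ 2 - 6) = 4 + δ := by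
    rw [hδ]; field_simp; ring
  have hc6 : 6 < c ^ 2 := by
    by_contra hcon
    push Not at hcon
    have : K / k * (c ^ 2 - 6) ≤ 0 :=
      mul_nonpos_of_nonneg_of_nonpos (by positivity) (by linarith)
    linarith
  set C1 : ℝ := K / k * (2 * k + 4) with hC1
  have hC10 : 0 ≤ C1 := by positivity
  set C2 : ℝ := 36 * k ^ 2 * (16 * c ^ 4) * 2 ^ C1 with hC2
  have hC20 : 0 ≤ C2 := by positivity
  obtain ⟨L₀, hL₀⟩ := exp_beats hC20 hδ0
  have hT : Filter.Tendsto (fun N : ℕ => Real.logb 2 (N : ℝ)) Filter.atTop Filter.atTop :=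
    (Real.tendsto_logb_atTop (by norm_num)).comp tendsto_natCast_atTop_atTop
  obtain ⟨N₀, hN₀⟩ := Filter.eventually_atTop.1
    ((hT.eventually_ge_atTop (max (max L₀ (4 / c ^ 2)) ((2 * k + 4) / (c ^ 2 - 6)))).and
      (Filter.eventually_ge_atTop 1))
  refine ⟨N₀, fun N hN => ?_⟩
  obtain ⟨h1, hN1⟩ := hN₀ N hN
  have hNR : (1 : ℝ) ≤ N := by exact_mod_cast hN1
  set L := Real.logb 2 (N : ℝ) with hL
  have h2 : L₀ ≤ L := ((le_max_left _ _).trans (le_max_left _ _)).trans h1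
  have h3 : 4 / c ^ 2 ≤ L := ((le_max_right _ _).trans (le_max_left _ _)).trans h1
  have h4 : (2 * k + 4) / (c ^ 2 - 6) ≤ L := (le_max_right _ _).trans h1
  have hL0 : 0 < L := lt_of_lt_of_le (by positivity) h3
  have hNL : (N : ℝ) = 2 ^ L := by
    rw [hL, Real.rpow_logb (by norm_num) (by norm_num) (by linarith)]
  set r := c * Real.sqrt L with hr
  have hr2 : r ^ 2 = c ^ 2 * L := by
    rw [hr, mul_pow, Real.sq_sqrt hL0.le]
  have hr0 : 0 ≤ r := by positivity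
  have hr4 : 2 ≤ r := by
    rw [div_le_iff₀ (by positivity)] at h3
    nlinarith
  have hq := Nat.le_ceil r
  have hq' := Nat.ceil_lt_add_one hr0
  set q := ⌈r⌉₊ with hqd
  have hq2 : 2 ≤ q := by
    have : (2 : ℝ) ≤ q := hr4.trans hq
    exact_mod_cast this
  have hqr : (q : ℝ) ≤ 2 * r := by linarith
  have hqq : c ^ 2 * L ≤ (q : ℝ) * q := by
    rw [← hr2]
    nlinarith
  -- the parameter `R0`
  set T : ℕ := ⌈6 * L⌉₊ + k + 3 with hTd
  have hT1 : (⌈6 * L⌉₊ : ℝ) < 6 * L + 1 := Nat.ceil_lt_add_one (by positivity)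
  have hT2 : 6 * L ≤ (⌈6 * L⌉₊ : ℝ) := Nat.le_ceil _
  have hTR : (T : ℝ) = (⌈6 * L⌉₊ : ℝ) + k + 3 := by rw [hTd]; push_cast; ring
  have h5 : 2 * (k : ℝ) + 4 ≤ (c ^ 2 - 6) * L := by
    rw [div_le_iff₀ (by linarith)] at h4
    linarith
  have hTq : T + k ≤ q * q := by
    have : (T : ℝ) + k ≤ (q : ℝ) * q := by
      rw [hTR]
      linarith
    exact_mod_cast this
  obtain ⟨R0, hR0⟩ : ∃ R0, R0 + T = q * q := ⟨q * q - T, by omega⟩
  have hR0k : k ≤ R0 := by omega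
  have hR0R : (R0 : ℝ) = (q : ℝ) * q - T := by
    have : ((R0 + T : ℕ) : ℝ) = ((q * q : ℕ) : ℝ) := by rw [hR0]
    push_cast at this
    linarith
  refine prevent_of_strategy (q := q) hq2 hq' ?_
  refine breaker_crit (board N) k R0 (q ^ 4 * (2 * N + 1) ^ 2) hk (fam N q) (gg k) (gg_one k)
    (gg_pow k hk) (codeg N q) ?_
  -- the clean part
  have hclean : (1 + k : ℝ) * ∑ A ∈ fam N q, (2 : ℝ) ^ R0 * (1 / 2) ^ A.card ≤ 1 / 8 := by
    have e1 : ∑ A ∈ fam N q, (2 : ℝ) ^ R0 * (1 / 2) ^ A.card ≤ (N : ℝ) ^ 6 * (1 / 2) ^ T := by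
      have e2 : ∀ A ∈ fam N q, (2 : ℝ) ^ R0 * (1 / 2) ^ A.card ≤ (1 / 2) ^ T := by
        intro A hA
        rw [card_mem_fam hA, ← hR0, pow_add, ← mul_assoc, ← mul_pow]
        norm_num
      refine (Finset.sum_le_sum e2).trans ?_
      rw [Finset.sum_const, nsmul_eq_mul]
      apply mul_le_mul_of_nonneg_right _ (by positivity)
      exact_mod_cast card_fam N q
    have e3 : (N : ℝ) ^ 6 ≤ 2 ^ ⌈6 * L⌉₊ := by
      have e4 : (N : ℝ) ^ 6 = 2 ^ (6 * L) := by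
        rw [hNL, ← Real.rpow_natCast, ← Real.rpow_mul (by norm_num)]
        congr 1
        push_cast
        ring
      rw [e4, ← Real.rpow_natCast 2 ⌈6 * L⌉₊]
      exact Real.rpow_le_rpow_of_exponent_le (by norm_num) hT2
    have e5 : (1 + k : ℝ) ≤ 2 ^ k := by
      have : 1 + k ≤ 2 ^ k := by
        have := @Nat.lt_two_pow_self k
        omega
      exact_mod_cast this
    calc (1 + k : ℝ) * ∑ A ∈ fam N q, (2 : ℝ) ^ R0 * (1 / 2) ^ A.card
        ≤ 2 ^ k * ((N : ℝ) ^ 6 * (1 / 2) ^ T) :=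
          mul_le_mul e5 e1 (Finset.sum_nonneg (fun A _ => mul_nonneg
            (pow_nonneg (by norm_num) _) (pow_nonneg (by norm_num) _)))
            (pow_nonneg (by norm_num) _)
      _ ≤ 2 ^ k * (2 ^ ⌈6 * L⌉₊ * (1 / 2) ^ T) := by
          apply mul_le_mul_of_nonneg_left _ (by positivity)
          exact mul_le_mul_of_nonneg_right e3 (by positivity)
      _ = 1 / 8 := by
          rw [hTd, pow_add, pow_add]
          have e6 : (2 : ℝ) ^ ⌈6 * L⌉₊ * (1 / 2) ^ ⌈6 * L⌉₊ = 1 := by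
            rw [← mul_pow]; norm_num
          have e7 : (2 : ℝ) ^ k * (1 / 2) ^ k = 1 := by
            rw [← mul_pow]; norm_num
          calc (2 : ℝ) ^ k * (2 ^ ⌈6 * L⌉₊ * ((1 / 2) ^ ⌈6 * L⌉₊ * (1 / 2) ^ k * (1 / 2) ^ 3))
              = ((2 : ℝ) ^ ⌈6 * L⌉₊ * (1 / 2) ^ ⌈6 * L⌉₊) * ((2 : ℝ) ^ k * (1 / 2) ^ k) *
                (1 / 2) ^ 3 := by ring
            _ = 1 / 8 := by rw [e6, e7]; norm_num
  -- the dirty part
  have hdirty : (((board N).card : ℝ) + 1) * ((k * k * (q ^ 4 * (2 * N + 1) ^ 2) : ℕ) *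
      (1 / gg k) ^ (R0 - k)) < 1 / 2 := by
    have hgpos : 0 < gg k := lt_of_lt_of_le one_pos (gg_one k)
    have hP : 0 < gg k ^ (R0 - k) := by positivity
    have f1 : (((board N).card : ℝ) + 1) ≤ 2 * (N : ℝ) ^ 2 := by
      rw [card_board]
      push_cast
      nlinarith
    have f2 : ((k * k * (q ^ 4 * (2 * N + 1) ^ 2) : ℕ) : ℝ) ≤
        (k : ℝ) ^ 2 * ((16 * c ^ 4 * L ^ 2) * (9 * (N : ℝ) ^ 2)) := by
      push_cast
      have g1 : (q : ℝ) ^ 4 ≤ 16 * c ^ 4 * L ^ 2 := by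
        have g2 : (q : ℝ) ^ 4 ≤ (2 * r) ^ 4 := pow_le_pow_left₀ (by positivity) hqr 4
        have g3 : (2 * r) ^ 4 = 16 * c ^ 4 * L ^ 2 := by
          have : (2 * r) ^ 4 = 16 * (r ^ 2) ^ 2 := by ring
          rw [this, hr2]
          ring
        linarith
      have g4 : (2 * (N : ℝ) + 1) ^ 2 ≤ 9 * (N : ℝ) ^ 2 := by nlinarith
      have g5 : (q : ℝ) ^ 4 * (2 * (N : ℝ) + 1) ^ 2 ≤
          (16 * c ^ 4 * L ^ 2) * (9 * (N : ℝ) ^ 2) :=
        mul_le_mul g1 g4 (by positivity) (by positivity)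
      have g6 : (0 : ℝ) ≤ (k : ℝ) ^ 2 := by positivity
      calc (k : ℝ) * k * ((q : ℝ) ^ 4 * (2 * (N : ℝ) + 1) ^ 2)
          = (k : ℝ) ^ 2 * ((q : ℝ) ^ 4 * (2 * (N : ℝ) + 1) ^ 2) := by ring
        _ ≤ _ := mul_le_mul_of_nonneg_left g5 g6
    have f3 : C2 * L ^ 2 < (2 : ℝ) ^ (δ * L) := hL₀ L h2
    have f4 : (N : ℝ) ^ 4 * (2 ^ (δ * L) / 2 ^ C1) ≤ gg k ^ (R0 - k) := by
      rw [gg_rpow k hk, ← hK]
      have g1 : (N : ℝ) ^ 4 = 2 ^ (4 * L) := by
        rw [hNL, ← Real.rpow_natCast, ← Real.rpow_mul (by norm_num)]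
        congr 1
        push_cast
        ring
      rw [g1, ← Real.rpow_sub (by norm_num), ← Real.rpow_add (by norm_num)]
      apply Real.rpow_le_rpow_of_exponent_le (by norm_num)
      rw [Nat.cast_sub hR0k, hR0R, hTR]
      have g2 : (c ^ 2 - 6) * L - (2 * k + 4) ≤
          (q : ℝ) * q - ((⌈6 * L⌉₊ : ℝ) + k + 3) - k := by linarith
      have g3 := mul_le_mul_of_nonneg_left g2 (show 0 ≤ K / k by positivity)
      refine le_trans (le_of_eq ?_) g3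
      have g4 : K / k * ((c ^ 2 - 6) * L - (2 * k + 4)) =
          (K / k * (c ^ 2 - 6)) * L - K / k * (2 * k + 4) := by ring
      rw [g4, hKk, hC1]
      ring
    have f5 : 36 * (k : ℝ) ^ 2 * (16 * c ^ 4) * L ^ 2 * (N : ℝ) ^ 4 < gg k ^ (R0 - k) := by
      refine lt_of_lt_of_le ?_ f4
      have g1 : (0 : ℝ) < (N : ℝ) ^ 4 := by positivity
      rw [mul_comm]
      apply mul_lt_mul_of_pos_left _ g1
      rw [lt_div_iff₀ (by positivity)]
      calc 36 * (k : ℝ) ^ 2 * (16 * c ^ 4) * L ^ 2 * 2 ^ C1 = C2 * L ^ 2 := by rw [hC2]; ring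
        _ < _ := f3
    have f6 : (((board N).card : ℝ) + 1) * ((k * k * (q ^ 4 * (2 * N + 1) ^ 2) : ℕ) : ℝ) ≤
        18 * (k : ℝ) ^ 2 * (16 * c ^ 4) * L ^ 2 * (N : ℝ) ^ 4 := by
      calc (((board N).card : ℝ) + 1) * ((k * k * (q ^ 4 * (2 * N + 1) ^ 2) : ℕ) : ℝ)
          ≤ (2 * (N : ℝ) ^ 2) * ((k : ℝ) ^ 2 * ((16 * c ^ 4 * L ^ 2) * (9 * (N : ℝ) ^ 2))) :=
            mul_le_mul f1 f2 (by positivity) (by positivity)
        _ = _ := by ring
    rw [one_div, inv_pow, ← mul_assoc, ← div_eq_mul_inv, div_lt_iff₀ hP]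
    linarith
  linarith

end Pool.Agent.Y629.LT
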